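import Pool.Agent.MP_be51b2_an.H70.Iso

/-!
A projective Banach lattice without a topological order unit that is not lattice isomorphic to any
free Banach lattice.
-/

namespace Pool.Agent.Results.MP_be51b2_an.NotIsomorphic

open Pool.Agent.MP_be51b2_an

universe w

/-- There is a projective Banach lattice `P` with no topological order unit such that no bounded
lattice homomorphism from `P` to a free Banach lattice is bijective. -/
theorem result : ∃ (P : Type) (_ : NormedAddCommGroup P) (_ : NormedSpace ℝ P) (_ : Lattice P)
    (_ : IsBanachLattice P), IsProjective P ∧ (∀ e : P, ¬ IsTopOrderUnit e) ∧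
      ∀ (F : Type) (_ : NormedAddCommGroup F) (_ : NormedSpace ℝ F) (_ : Lattice F)
        (_ : IsBanachLattice F) (A : Type w) (_ : Nonempty A) (δ : A → F), IsFreeOn δ →
        ∀ T : P →L[ℝ] F, IsLatticeHom T → ¬ Function.Bijective T :=
  ⟨H70.PP, inferInstance, inferInstance, inferInstance, inferInstance, H70.projective_PP,
    H70.no_unit, fun _ _ _ _ _ _ _ _ h T hT => H70.not_iso h T hT⟩

end Pool.Agent.Results.MP_be51b2_an.NotIsomorphic
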